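import Mathlib
import Pool.Agent.Q248.BDP.Pow
import Pool.Agent.Q248.BDP.Rnd
import Pool.Agent.W431.Frob.Final
import Pool.Agent.TH130.PE.Forms

/-!
# Powers of generic forms against generic forms, in the degrees below any multiple of `d k`

For `M = 14 κ ^ 2 u C ^ u`, all `n`, `d`, `k` and all `r ≤ C ^ ((u - 1) * min (n / M) d)` the
ideal generated by the `k`-th powers of `r` generic forms of degree `d` in `n` variables is, in every
degree `j < κ d k`, at least as large as the ideal generated by **any** `r` forms of degree `d k`.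
The same holds for `r ≤ n ^ e / M`, `e ≤ d`, with an `M` that depends on `e` and `κ` only.
-/

set_option autoImplicit false

namespace Pool.Agent.Results.MP_e0014e_ag.ManyPowers

open MvPolynomial

/-- The dimension of the degree `j` part of the ideal generated by the `f i`. -/
noncomputable def dimI {n r : ℕ} (f : Fin r → MvPolynomial (Fin n) ℂ) (j : ℕ) : ℕ :=
  Module.finrank ℂ
    ↥(MvPolynomial.homogeneousSubmodule (Fin n) ℂ j ⊓
      (Ideal.span (Set.range f)).restrictScalars ℂ)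

/-- The coefficient of `t ^ j` in `(1 - t) ^ (-n) * (1 - t ^ e) ^ r`. -/
noncomputable def co (n r e j : ℕ) : ℤ :=
  PowerSeries.coeff j
    ((PowerSeries.mk fun _ => (1 : ℤ)) ^ n * (1 - PowerSeries.X ^ e) ^ r)

/-- For `r` generic forms `g i` of degree `d` in `n` variables (off a hypersurface in the space of
the coefficients) the ideal generated by the powers `g i ^ k` has in all degrees `j < j₀` the
codimension `co n r (d * k) j`, and is at least as large as the ideal generated by any `r` forms of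
degree `d * k`. -/
def MaximalBelow (n r d k j₀ : ℕ) : Prop :=
  ∃ P : MvPolynomial (Σ _ : Fin r, {m : Fin n →₀ ℕ // Finsupp.degree m = d}) ℂ, P ≠ 0 ∧
    ∀ g : Fin r → MvPolynomial (Fin n) ℂ, (∀ i, (g i).IsHomogeneous d) →
      MvPolynomial.eval
          (fun x : (Σ _ : Fin r, {m : Fin n →₀ ℕ // Finsupp.degree m = d}) =>
            (g x.1).coeff x.2.1) P ≠ 0 →
      ∀ j : ℕ, j < j₀ →
        (Module.finrank ℂ (MvPolynomial.homogeneousSubmodule (Fin n) ℂ j) : ℤ) -
          (dimI (fun i => g i ^ k) j : ℤ) = co n r (d * k) j ∧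
        ∀ h : Fin r → MvPolynomial (Fin n) ℂ, (∀ i, (h i).IsHomogeneous (d * k)) →
          dimI h j ≤ dimI (fun i => g i ^ k) j

lemma dimI_eq {n r : ℕ} {e : Fin r → ℕ} {f : Fin r → MvPolynomial (Fin n) ℂ}
    (hf : ∀ i, (f i).IsHomogeneous (e i)) (j : ℕ) :
    (dimI f j : ℤ) = H350MG.gj (Fin n) j - H350MG.qd (H350MG.fList e f) j := by
  unfold dimI H350MG.qd
  rw [inf_comm, H350MG.span_inf_eq hf j]
  ring

theorem transfer {n r d k j₀ : ℕ} (hn : 1 ≤ n)
    (h : ∃ Φ : MvPolynomial (H350MG.Cf (Fin n) (fun _ : Fin r => d)) ℂ, Φ ≠ 0 ∧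
      ∀ x, MvPolynomial.eval x Φ ≠ 0 → ∀ j < j₀,
      H350MG.qd (H350MG.fList (fun _ : Fin r => d * k) (fun i => H350MG.fc x i ^ k)) j =
        H350MG.E (H350MG.gj (Fin n)) (List.ofFn fun _ : Fin r => d * k) j)
    (h' : ∃ Φ : MvPolynomial (H350MG.Cf (Fin n) (fun _ : Fin r => d * k)) ℂ, Φ ≠ 0 ∧
      ∀ x, MvPolynomial.eval x Φ ≠ 0 → ∀ j < j₀,
      H350MG.qd (H350MG.fList (fun _ : Fin r => d * k * 1) (fun i => H350MG.fc x i ^ 1)) j =
        H350MG.E (H350MG.gj (Fin n)) (List.ofFn fun _ : Fin r => d * k * 1) j) :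
    MaximalBelow n r d k j₀ := by
  classical
  obtain ⟨Φ, hΦ0, hΦ⟩ := h
  obtain ⟨Φ', hΦ0', hΦ'⟩ := h'
  refine ⟨Φ, hΦ0, ?_⟩
  intro g hg hgΦ j hj
  have h1 := hΦ _ hgΦ j hj
  have h2 : H350MG.fc (fun x : H350MG.Cf (Fin n) (fun _ : Fin r => d) => (g x.1).coeff x.2.1) = g :=
    funext fun i => H350MG.fc_coeff (d := fun _ => d) hg i
  simp only [h2] at h1
  have hE : ∀ i, H350MG.E (H350MG.gj (Fin n)) (List.ofFn fun _ : Fin r => d * k) i =
      co n r (d * k) i := by
    intro i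
    rw [H350MG.E_ofFn_series n hn]
    unfold co
    rw [Finset.prod_const, Finset.card_univ, Fintype.card_fin]
  have hdg : (dimI (fun i => g i ^ k) j : ℤ) = H350MG.gj (Fin n) j - co n r (d * k) j := by
    rw [← hE, ← h1]
    exact dimI_eq (e := fun _ : Fin r => d * k) (fun i => (hg i).pow k) j
  refine ⟨?_, ?_⟩
  · rw [hdg, ← H350MG.finrank_Rj' (𝕜 := ℂ) j]
    change (Module.finrank ℂ (MvPolynomial.homogeneousSubmodule (Fin n) ℂ j) : ℤ) -
      ((Module.finrank ℂ (MvPolynomial.homogeneousSubmodule (Fin n) ℂ j) : ℤ) - _) = _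
    ring
  · intro h hh
    have hG : Pool.Agent.W431.Frob.Gen ℂ
        (fun c : H350MG.Cf (Fin n) (fun _ : Fin r => d * k) → ℂ =>
          H350MG.qd (H350MG.fList (fun _ : Fin r => d * k) (H350MG.fc c)) j =
            co n r (d * k) j) := by
      refine ⟨Φ', hΦ0', fun c hc => ?_⟩
      have h3 := hΦ' c hc j hj
      simp only [mul_one, pow_one] at h3
      rw [hE] at h3
      exact h3
    obtain ⟨c, hc1, hc2⟩ := (hG.and (Pool.Agent.W431.Frob.gen_qd (K := ℂ)
      (d := fun _ : Fin r => d * k) (F := h) hh j)).exists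
    have hdh : (dimI h j : ℤ) = H350MG.gj (Fin n) j -
        H350MG.qd (H350MG.fList (fun _ : Fin r => d * k) h) j :=
      dimI_eq (e := fun _ : Fin r => d * k) hh j
    have h4 : (dimI h j : ℤ) ≤ (dimI (fun i => g i ^ k) j : ℤ) := by
      rw [hdh, hdg, ← hc1]
      linarith
    exact_mod_cast h4

/-- **Powers of generic forms generate as much as generic forms below any multiple of the degree.** -/
theorem result :
    -- exponentially many forms
    (∀ κ u C : ℕ, 1 ≤ κ → 2 ≤ u → 1 ≤ C → ∀ n r d k : ℕ, 1 ≤ n → 1 ≤ d → 1 ≤ k →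
      r ≤ C ^ ((u - 1) * min (n / (14 * κ ^ 2 * u * C ^ u)) d) →
        MaximalBelow n r d k (κ * (d * k))) ∧
    -- polynomially many forms
    (∀ e κ : ℕ, 1 ≤ e → ∃ M : ℕ, 0 < M ∧ ∀ n r d k : ℕ, 1 ≤ n → e ≤ d → 1 ≤ k →
      r * M ≤ n ^ e → MaximalBelow n r d k (κ * (d * k))) := by
  have h1 : ∀ κ d k : ℕ, κ * (d * k * 1) = κ * (d * k) := fun κ d k => by rw [mul_one]
  refine ⟨?_, ?_⟩
  · intro κ u C hκ hu hC n r d k hn hd hk hr
    have hdk : d ≤ d * k := Nat.le_mul_of_pos_right d hk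
    obtain ⟨L, hL⟩ : ∃ L, L = min (n / (14 * κ ^ 2 * u * C ^ u)) d := ⟨_, rfl⟩
    rw [← hL] at hr
    rcases Nat.eq_zero_or_pos L with h0 | h2
    · rw [h0, mul_zero, pow_zero] at hr
      refine transfer hn (Pool.Agent.Q248.BDP.pow_one_form κ n r hn hr ℂ d k hd hk) ?_
      have h3 := Pool.Agent.Q248.BDP.pow_one_form κ n r hn hr ℂ (d * k) 1 (by omega) le_rfl
      rw [h1] at h3
      exact h3
    · obtain ⟨X⟩ := Pool.Agent.Q248.BDP.sys_rnd hκ hu hC n L r h2
        (by rw [hL]; exact min_le_left _ _) hr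
      have hLd : L ≤ d := by rw [hL]; exact min_le_right _ _
      refine transfer hn (Pool.Agent.Q248.BDP.pow_of_sys X h2 ℂ d k hLd hk) ?_
      have h3 := Pool.Agent.Q248.BDP.pow_of_sys X h2 ℂ (d * k) 1 (hLd.trans hdk) le_rfl
      rw [h1] at h3
      exact h3
  · intro e κ he
    obtain ⟨M, hM, h⟩ := Pool.Agent.Q248.BDP.sys_poly e κ he
    refine ⟨M, hM, ?_⟩
    intro n r d k hn hd hk hr
    have hdk : d ≤ d * k := Nat.le_mul_of_pos_right d hk
    obtain ⟨X⟩ := h n r hr
    refine transfer hn (Pool.Agent.Q248.BDP.pow_of_sys X he ℂ d k hd hk) ?_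
    have h3 := Pool.Agent.Q248.BDP.pow_of_sys X he ℂ (d * k) 1 (hd.trans hdk) le_rfl
    rw [h1] at h3
    exact h3

end Pool.Agent.Results.MP_e0014e_ag.ManyPowers
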